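import Mathlib

set_option autoImplicit false

namespace Pool.Agent.H410R4.PC

/-- Completely multiplicative even functions with values `1` and `-1` and `g 2 = -1`. -/
structure Good (g : ℤ → ℤ) : Prop where
  mul : ∀ a b : ℤ, a ≠ 0 → b ≠ 0 → g (a * b) = g a * g b
  val : ∀ a : ℤ, g a = 1 ∨ g a = -1
  neg : ∀ a : ℤ, g (-a) = g a
  two : g 2 = -1

/-- `g (m ^ 3 + K) = s` for all large `m`. -/
def E (g : ℤ → ℤ) (K s : ℤ) : Prop := ∃ M : ℤ, ∀ m : ℤ, M ≤ m → g (m ^ 3 + K) = s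

variable {g : ℤ → ℤ}

lemma Good.sq (hg : Good g) (a : ℤ) : g a * g a = 1 := by
  rcases hg.val a with h | h <;> rw [h] <;> norm_num

lemma Good.one (hg : Good g) : g 1 = 1 := by
  have h := hg.mul 1 1 one_ne_zero one_ne_zero
  rw [mul_one, hg.sq] at h
  exact h

lemma Good.pow (hg : Good g) {a : ℤ} (ha : a ≠ 0) : ∀ n : ℕ, g (a ^ n) = (g a) ^ n
  | 0 => by simp [hg.one]
  | n + 1 => by rw [pow_succ, pow_succ, hg.mul _ _ (pow_ne_zero n ha) ha, hg.pow ha n]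

lemma Good.pow_two_even (hg : Good g) {a : ℤ} (ha : a ≠ 0) (n : ℕ) : g (a ^ (2 * n)) = 1 := by
  rw [hg.pow ha, pow_mul, pow_two, hg.sq, one_pow]

lemma Good.pow3 (hg : Good g) {a : ℤ} (ha : a ≠ 0) : g (a ^ 3) = g a := by
  rw [hg.pow ha]
  rcases hg.val a with h | h <;> rw [h] <;> norm_num

lemma Good.two_pow (hg : Good g) (n : ℕ) : g (2 ^ n) = (-1) ^ n := by
  rw [hg.pow two_ne_zero, hg.two]

lemma le_cube {m : ℤ} (h : 1 ≤ m) : m ≤ m ^ 3 := by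
  have h1 : 1 ≤ m ^ 2 := by nlinarith
  nlinarith

lemma cube_add_pos {m K : ℤ} (h : |K| < m) : 0 < m ^ 3 + K := by
  have h0 : 0 ≤ |K| := abs_nonneg K
  have h1 : -|K| ≤ K := neg_abs_le K
  have h2 := le_cube (m := m) (by linarith)
  linarith

lemma E_unique {K s s' : ℤ} (h : E g K s) (h' : E g K s') : s = s' := by
  obtain ⟨M, hM⟩ := h
  obtain ⟨M', hM'⟩ := h'
  rw [← hM (max M M') (le_max_left _ _), hM' (max M M') (le_max_right _ _)]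

lemma le_mul_pos {M e m : ℤ} (he : 0 < e) (hm : 0 < m) (h : M ≤ m) : M ≤ e * m := by
  have : m ≤ e * m := le_mul_of_one_le_left hm.le he
  linarith

lemma E_scale (hg : Good g) {K s e s' : ℤ} (he : 0 < e) (h : E g K s) (h' : E g (K * e ^ 3) s') :
    s' = g e * s := by
  obtain ⟨M, hM⟩ := h
  obtain ⟨M', hM'⟩ := h'
  obtain ⟨m, hm1, hm2, hm3⟩ : ∃ m : ℤ, M ≤ m ∧ M' ≤ m ∧ |K| < m :=
    ⟨max (max M M') (|K| + 1), le_trans (le_max_left _ _) (le_max_left _ _),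
      le_trans (le_max_right _ _) (le_max_left _ _), lt_of_lt_of_le (lt_add_one _) (le_max_right _ _)⟩
  have hmpos : 0 < m := lt_of_le_of_lt (abs_nonneg K) hm3
  have h1 := hM m hm1
  have h2 := hM' (e * m) (le_mul_pos he hmpos hm2)
  have hne : m ^ 3 + K ≠ 0 := ne_of_gt (cube_add_pos hm3)
  have h3 : (e * m) ^ 3 + K * e ^ 3 = e ^ 3 * (m ^ 3 + K) := by ring
  rw [h3, hg.mul _ _ (pow_ne_zero 3 he.ne') hne, hg.pow3 he.ne', h1] at h2
  exact h2.symm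

lemma E_div (hg : Good g) {K e s' : ℤ} (he : 0 < e) (h' : E g (K * e ^ 3) s') :
    E g K (g e * s') := by
  obtain ⟨M', hM'⟩ := h'
  refine ⟨max M' (|K| + 1), fun m hm => ?_⟩
  have hm1 : M' ≤ m := le_trans (le_max_left _ _) hm
  have hm3 : |K| < m := lt_of_lt_of_le (lt_add_one _) (le_trans (le_max_right _ _) hm)
  have hmpos : 0 < m := lt_of_le_of_lt (abs_nonneg K) hm3
  have h2 := hM' (e * m) (le_mul_pos he hmpos hm1)
  have hne : m ^ 3 + K ≠ 0 := ne_of_gt (cube_add_pos hm3)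
  have h3 : (e * m) ^ 3 + K * e ^ 3 = e ^ 3 * (m ^ 3 + K) := by ring
  rw [h3, hg.mul _ _ (pow_ne_zero 3 he.ne') hne, hg.pow3 he.ne'] at h2
  have h4 := hg.sq e
  calc g (m ^ 3 + K) = (g e * g e) * g (m ^ 3 + K) := by rw [h4, one_mul]
    _ = g e * s' := by rw [← h2]; ring

/-- the five term norm relation, in opaque form -/
lemma five {n1 n2 n3 m1 m2 S K : ℤ}
    (h1 : n1 + n2 + n3 = S) (h2 : n1 * n2 + n1 * n3 + n2 * n3 = S * (m1 + m2))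
    (h3 : S * (m1 * m2) - n1 * n2 * n3 = K) :
    (n1 ^ 3 + K) * (n2 ^ 3 + K) * (n3 ^ 3 + K) = S ^ 3 * ((m1 ^ 3 + K) * (m2 ^ 3 + K)) := by
  have hX : ∀ X : ℤ, X ^ 3 + K =
      (X - n1) * (X - n2) * (X - n3) + S * ((X - m1) * (X - m2)) := by
    intro X
    linear_combination (X ^ 2) * h1 - X * h2 - h3
  have e1 : n1 ^ 3 + K = S * ((n1 - m1) * (n1 - m2)) := by rw [hX n1]; ring
  have e2 : n2 ^ 3 + K = S * ((n2 - m1) * (n2 - m2)) := by rw [hX n2]; ring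
  have e3 : n3 ^ 3 + K = S * ((n3 - m1) * (n3 - m2)) := by rw [hX n3]; ring
  have e4 : m1 ^ 3 + K = (m1 - n1) * (m1 - n2) * (m1 - n3) := by rw [hX m1]; ring
  have e5 : m2 ^ 3 + K = (m2 - n1) * (m2 - n2) * (m2 - n3) := by rw [hX m2]; ring
  rw [e1, e2, e3, e4, e5]
  ring

lemma rneg {r : ℤ} (h : 5 ≤ r) : 0 ≤ r ^ 3 - 2 * r ^ 2 := by
  have : r ^ 3 - 2 * r ^ 2 = r ^ 2 * (r - 2) := by ring
  rw [this]
  exact mul_nonneg (sq_nonneg r) (by linarith)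

lemma bnd1 {a b p A2 r : ℤ} (hb : 1 ≤ b) (h0 : 0 ≤ a) (hr : a + 5 ≤ r) (hp : p ≤ a * b)
    (hA : A2 ≤ a ^ 2 * b) : r ≤ b * (r ^ 3 + 2 * r ^ 2 + 2 * r + 1) - p * (3 * r + 2) - A2 := by
  have h1 : p * (3 * r + 2) ≤ a * b * (3 * r + 2) := mul_le_mul_of_nonneg_right hp (by linarith)
  have h3 : a * (3 * r + 2) ≤ (r - 5) * (3 * r + 2) :=
    mul_le_mul_of_nonneg_right (by linarith) (by linarith)
  have h4 : a ^ 2 ≤ (r - 5) ^ 2 := pow_le_pow_left₀ h0 (by linarith) 2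
  have h5 := rneg (r := r) (by linarith)
  have h2 : r ≤ (r ^ 3 + 2 * r ^ 2 + 2 * r + 1) - a * (3 * r + 2) - a ^ 2 := by
    have e1 : (r - 5) * (3 * r + 2) = 3 * r ^ 2 - 13 * r - 10 := by ring
    have e2 : (r - 5) ^ 2 = r ^ 2 - 10 * r + 25 := by ring
    linarith
  have h6 : r ≤ b * ((r ^ 3 + 2 * r ^ 2 + 2 * r + 1) - a * (3 * r + 2) - a ^ 2) :=
    le_trans h2 (le_mul_of_one_le_left (by linarith) hb)
  have e3 : b * ((r ^ 3 + 2 * r ^ 2 + 2 * r + 1) - a * (3 * r + 2) - a ^ 2)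
      = b * (r ^ 3 + 2 * r ^ 2 + 2 * r + 1) - a * b * (3 * r + 2) - a ^ 2 * b := by ring
  linarith

lemma bnd2 {a b p A2 r : ℤ} (hb : 1 ≤ b) (h0 : 0 ≤ a) (hr : a + 5 ≤ r) (hp : p ≤ a * b)
    (hA : 0 ≤ A2) : -(b * (r ^ 3 + r ^ 2 + r)) + p * (3 * r + 1) - A2 ≤ -r := by
  have h1 : p * (3 * r + 1) ≤ a * b * (3 * r + 1) := mul_le_mul_of_nonneg_right hp (by linarith)
  have h3 : a * (3 * r + 1) ≤ (r - 5) * (3 * r + 1) :=
    mul_le_mul_of_nonneg_right (by linarith) (by linarith)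
  have h5 := rneg (r := r) (by linarith)
  have h2 : r ≤ (r ^ 3 + r ^ 2 + r) - a * (3 * r + 1) := by
    have e1 : (r - 5) * (3 * r + 1) = 3 * r ^ 2 - 14 * r - 5 := by ring
    linarith
  have h6 : r ≤ b * ((r ^ 3 + r ^ 2 + r) - a * (3 * r + 1)) :=
    le_trans h2 (le_mul_of_one_le_left (by linarith) hb)
  have e3 : b * ((r ^ 3 + r ^ 2 + r) - a * (3 * r + 1))
      = b * (r ^ 3 + r ^ 2 + r) - a * b * (3 * r + 1) := by ring
  linarith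

lemma bnd3 {a b p r : ℤ} (hb : 1 ≤ b) (h0 : 0 ≤ a) (hr : a + 5 ≤ r) (hp : p ≤ a * b) :
    2 * p - b * (r ^ 2 + r) ≤ -r := by
  have h2 : r ≤ (r ^ 2 + r) - 2 * a := by nlinarith
  have h6 : r ≤ b * ((r ^ 2 + r) - 2 * a) :=
    le_trans h2 (le_mul_of_one_le_left (by linarith) hb)
  have e3 : b * ((r ^ 2 + r) - 2 * a) = b * (r ^ 2 + r) - 2 * (a * b) := by ring
  linarith

lemma bnd4 {C N K0 r : ℤ} (hr : 5 ≤ r) (hC : |C| ≤ r) (hK : |K0| ≤ r) (hN : N ≤ -r) :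
    C * N + N ^ 3 + K0 ≤ -r := by
  have h1 : -r ≤ C := by linarith [neg_abs_le C]
  have h2 : K0 ≤ r := by linarith [le_abs_self K0]
  have h3 : r ^ 2 ≤ N ^ 2 := by nlinarith
  have h4 : r ^ 2 - r ≤ C + N ^ 2 := by linarith
  have h5 : (0:ℤ) ≤ r ^ 2 - r := by nlinarith
  have h6 : r * (r ^ 2 - r) ≤ (-N) * (C + N ^ 2) :=
    mul_le_mul (by linarith) h4 h5 (by linarith)
  have h8 := rneg hr
  have e1 : (-N) * (C + N ^ 2) = -(C * N + N ^ 3) := by ring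
  have e2 : r * (r ^ 2 - r) = r ^ 3 - r ^ 2 := by ring
  nlinarith

end Pool.Agent.H410R4.PC
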