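import Mathlib
import Pool.Agent.H410R4.PCa

set_option autoImplicit false

namespace Pool.Agent.H410R4.PC

variable {g : ℤ → ℤ}

lemma id1 (A B r : ℤ) :
    (B ^ 2 * (r ^ 3 + 2 * r ^ 2 + 2 * r + 1) - A * B * (3 * r + 2) - A ^ 2)
    + (-(B ^ 2 * (r ^ 3 + r ^ 2 + r)) + A * B * (3 * r + 1) - A ^ 2)
    + (2 * (A * B) - B ^ 2 * (r ^ 2 + r + 1)) = A * (B - 2 * A) := by ring

lemma id2 (A B r N1 N2 N3 : ℤ)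
    (h1 : N1 = B ^ 2 * (r ^ 3 + 2 * r ^ 2 + 2 * r + 1) - A * B * (3 * r + 2) - A ^ 2)
    (h2 : N2 = -(B ^ 2 * (r ^ 3 + r ^ 2 + r)) + A * B * (3 * r + 1) - A ^ 2)
    (h3 : N3 = 2 * (A * B) - B ^ 2 * (r ^ 2 + r + 1)) :
    B ^ 2 * (N1 * N2 + N1 * N3 + N2 * N3) = A * B ^ 2 * (B - 2 * A) * (N3 + B ^ 2)
      + (A * B ^ 2 * (B - 2 * A) * N3 + N3 ^ 3 + A * B ^ 2 * (A - B) ^ 3) := by
  subst h1 h2 h3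
  ring

lemma id3 (A B r N1 N2 N3 : ℤ)
    (h1 : N1 = B ^ 2 * (r ^ 3 + 2 * r ^ 2 + 2 * r + 1) - A * B * (3 * r + 2) - A ^ 2)
    (h2 : N2 = -(B ^ 2 * (r ^ 3 + r ^ 2 + r)) + A * B * (3 * r + 1) - A ^ 2)
    (h3 : N3 = 2 * (A * B) - B ^ 2 * (r ^ 2 + r + 1)) :
    (N3 + B ^ 2) * (A * B ^ 2 * (B - 2 * A) * N3 + N3 ^ 3 + A * B ^ 2 * (A - B) ^ 3)
      = B ^ 2 * (A * B ^ 2 * (A - B) ^ 3 + N1 * N2 * N3) := by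
  subst h1 h2 h3
  ring

/-- all data of the family in opaque form -/
lemma family {A B : ℤ} (hA : A ≠ 0) (hB : B ≠ 0) (hAB : B - 2 * A ≠ 0) (R : ℤ) :
    ∃ r N1 N2 N3 M1 M2 q C K0 : ℤ, R ≤ r ∧ q = A * (B - 2 * A) ∧ C = B ^ 2 * q ∧
      K0 = A * B ^ 2 * (A - B) ^ 3 ∧ |C ^ 3 * K0| < r ∧ r ≤ N1 ∧ N2 ≤ -r ∧ N3 ≤ -r ∧ M1 ≤ -r ∧
      M2 ≤ -r ∧ N1 + N2 + N3 = q ∧ B ^ 2 * (N1 * N2 + N1 * N3 + N2 * N3) = C * M1 + M2 ∧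
      M1 * M2 = B ^ 2 * (K0 + N1 * N2 * N3) := by
  obtain ⟨C, hC⟩ : ∃ C : ℤ, C = A * B ^ 2 * (B - 2 * A) := ⟨_, rfl⟩
  obtain ⟨K0, hK0⟩ : ∃ K0 : ℤ, K0 = A * B ^ 2 * (A - B) ^ 3 := ⟨_, rfl⟩
  obtain ⟨r, hrA, hrC, hrK0, hrR, hrK⟩ : ∃ r : ℤ, |A| + 5 ≤ r ∧ |C| ≤ r ∧ |K0| ≤ r ∧
      R ≤ r ∧ |C ^ 3 * K0| < r := by
    refine ⟨|A| + |C| + |K0| + |R| + |C ^ 3 * K0| + 5, ?_, ?_, ?_, ?_, ?_⟩ <;>
    linarith [abs_nonneg A, abs_nonneg C, abs_nonneg K0, abs_nonneg R, abs_nonneg (C ^ 3 * K0),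
      le_abs_self R]
  have hr5 : 5 ≤ r := by linarith [abs_nonneg A]
  obtain ⟨N1, hN1⟩ : ∃ N1 : ℤ, N1 = B ^ 2 * (r ^ 3 + 2 * r ^ 2 + 2 * r + 1)
      - A * B * (3 * r + 2) - A ^ 2 := ⟨_, rfl⟩
  obtain ⟨N2, hN2⟩ : ∃ N2 : ℤ, N2 = -(B ^ 2 * (r ^ 3 + r ^ 2 + r)) + A * B * (3 * r + 1)
      - A ^ 2 := ⟨_, rfl⟩
  obtain ⟨N3, hN3⟩ : ∃ N3 : ℤ, N3 = 2 * (A * B) - B ^ 2 * (r ^ 2 + r + 1) := ⟨_, rfl⟩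
  have hb1 : 1 ≤ B ^ 2 := by
    have : 0 < B ^ 2 := by positivity
    linarith
  have hBB : |B| ≤ B ^ 2 := by
    rw [← sq_abs B]
    have h1 : 1 ≤ |B| := Int.one_le_abs hB
    calc |B| = 1 * |B| := (one_mul _).symm
      _ ≤ |B| * |B| := mul_le_mul_of_nonneg_right h1 (abs_nonneg _)
      _ = |B| ^ 2 := (sq _).symm
  have hAB2 : A * B ≤ |A| * B ^ 2 := by
    refine le_trans (le_abs_self _) ?_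
    rw [abs_mul]
    exact mul_le_mul_of_nonneg_left hBB (abs_nonneg A)
  have hA2 : A ^ 2 ≤ |A| ^ 2 * B ^ 2 := by
    rw [sq_abs]
    exact le_mul_of_one_le_right (sq_nonneg A) hb1
  have hN3r : N3 ≤ -r := by
    have := bnd3 hb1 (abs_nonneg A) hrA hAB2
    have e : N3 = 2 * (A * B) - B ^ 2 * (r ^ 2 + r) - B ^ 2 := by rw [hN3]; ring
    linarith
  have hM1r : N3 + B ^ 2 ≤ -r := by
    have := bnd3 hb1 (abs_nonneg A) hrA hAB2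
    have e : N3 + B ^ 2 = 2 * (A * B) - B ^ 2 * (r ^ 2 + r) := by rw [hN3]; ring
    linarith
  refine ⟨r, N1, N2, N3, N3 + B ^ 2, C * N3 + N3 ^ 3 + K0, A * (B - 2 * A), C, K0, hrR, rfl, ?_,
    hK0, hrK, ?_, ?_, hN3r, hM1r, bnd4 hr5 hrC hrK0 hN3r, ?_, ?_, ?_⟩
  · rw [hC]; ring
  · rw [hN1]; exact bnd1 hb1 (abs_nonneg A) hrA hAB2 hA2
  · rw [hN2]; exact bnd2 hb1 (abs_nonneg A) hrA hAB2 (sq_nonneg A)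
  · rw [hN1, hN2, hN3]; exact id1 A B r
  · rw [hC, hK0]; exact id2 A B r N1 N2 N3 hN1 hN2 hN3
  · rw [hC, hK0]; exact id3 A B r N1 N2 N3 hN1 hN2 hN3

lemma rel5 {B N1 N2 N3 M1 M2 q C K0 : ℤ} (hCq : C = B ^ 2 * q)
    (i1 : N1 + N2 + N3 = q) (i2 : B ^ 2 * (N1 * N2 + N1 * N3 + N2 * N3) = C * M1 + M2)
    (i3 : M1 * M2 = B ^ 2 * (K0 + N1 * N2 * N3)) :
    ((C * N1) ^ 3 + C ^ 3 * K0) * ((C * N2) ^ 3 + C ^ 3 * K0) * ((C * N3) ^ 3 + C ^ 3 * K0)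
      = (C * q) ^ 3 * (((C * M1) ^ 3 + C ^ 3 * K0) * (M2 ^ 3 + C ^ 3 * K0)) := by
  apply five (n1 := C * N1) (n2 := C * N2) (n3 := C * N3) (m1 := C * M1) (m2 := M2)
    (S := C * q) (K := C ^ 3 * K0)
  · rw [← i1]; ring
  · rw [← i2]
    linear_combination (C * (N1 * N2 + N1 * N3 + N2 * N3)) * hCq
  · have h : C * q * (C * M1 * M2) = C * q * C * (B ^ 2 * (K0 + N1 * N2 * N3)) := by
      rw [← i3]; ring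
    rw [h]
    linear_combination (-(C * C * (K0 + N1 * N2 * N3))) * hCq

end Pool.Agent.H410R4.PC
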