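import Mathlib
import Pool.Agent.H410R4.PCb

set_option autoImplicit false

namespace Pool.Agent.H410R4.PC

variable {g : ℤ → ℤ}

lemma mul_le_of_pos {C N r : ℤ} (hC : 1 ≤ C) (hr : 0 ≤ r) (h : r ≤ N) : r ≤ C * N := by
  have : N ≤ C * N := le_mul_of_one_le_left (by linarith) hC
  linarith

lemma keyAB (hg : Good g) {A B s s' : ℤ} (hA : A ≠ 0) (hB : B ≠ 0) (hAB : B - 2 * A ≠ 0)
    (hs0 : s = 1 ∨ s = -1) (hs0' : s' = 1 ∨ s' = -1)
    (hs : E g ((B ^ 2 * (A * (B - 2 * A))) ^ 3 * (A * B ^ 2 * (A - B) ^ 3)) s)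
    (hs' : E g (-((B ^ 2 * (A * (B - 2 * A))) ^ 3 * (A * B ^ 2 * (A - B) ^ 3))) s') : s = 1 := by
  obtain ⟨M, hM⟩ := hs
  obtain ⟨M', hM'⟩ := hs'
  obtain ⟨r, N1, N2, N3, M1, M2, q, C, K0, hR, hq, hCq, hK0, hrK, bN1, bN2, bN3, bM1, bM2, i1, i2,
    i3⟩ := family hA hB hAB (max (max M M') 1)
  have hrM : M ≤ r := le_trans (le_trans (le_max_left _ _) (le_max_left _ _)) hR
  have hrM' : M' ≤ r := le_trans (le_trans (le_max_right _ _) (le_max_left _ _)) hR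
  have hr1 : 1 ≤ r := le_trans (le_max_right _ _) hR
  rw [← hq, ← hCq, ← hK0] at hM hM'
  have hq0 : q ≠ 0 := by rw [hq]; exact mul_ne_zero hA hAB
  have hC0 : C ≠ 0 := by rw [hCq]; exact mul_ne_zero (pow_ne_zero 2 hB) hq0
  have rel := rel5 hCq i1 i2 i3
  clear i1 i2 i3 hK0
  obtain ⟨K, hK⟩ : ∃ K : ℤ, K = C ^ 3 * K0 := ⟨_, rfl⟩
  rw [← hK] at hM hM' hrK rel
  have vpos : ∀ n : ℤ, r ≤ n → g (n ^ 3 + K) = s ∧ n ^ 3 + K ≠ 0 := by
    intro n hn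
    exact ⟨hM n (by linarith), ne_of_gt (cube_add_pos (by linarith))⟩
  have vneg : ∀ n : ℤ, r ≤ -n → g (n ^ 3 + K) = s' ∧ n ^ 3 + K ≠ 0 := by
    intro n hn
    have h1 := hM' (-n) (by linarith)
    have h2 : (-n) ^ 3 + -K = -(n ^ 3 + K) := by ring
    rw [h2, hg.neg] at h1
    refine ⟨h1, ?_⟩
    have h3 : 0 < (-n) ^ 3 + -K := cube_add_pos (by rw [abs_neg]; linarith)
    rw [h2] at h3
    intro h0
    rw [h0] at h3
    simp at h3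
  have hS0 : C * q ≠ 0 := mul_ne_zero hC0 hq0
  have gS : g ((C * q) ^ 3) = 1 := by
    have : (C * q) ^ 3 = (B * q) ^ (2 * 3) := by rw [hCq]; ring
    rw [this]
    exact hg.pow_two_even (mul_ne_zero hB hq0) 3
  have grel : ∀ {x1 x2 x3 y1 y2 : ℤ}, x1 ≠ 0 → x2 ≠ 0 → x3 ≠ 0 → y1 ≠ 0 → y2 ≠ 0 →
      x1 * x2 * x3 = (C * q) ^ 3 * (y1 * y2) → g x1 * g x2 * g x3 = g y1 * g y2 := by
    intro x1 x2 x3 y1 y2 h1 h2 h3 h4 h5 h
    have := congrArg g h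
    rw [hg.mul _ _ (mul_ne_zero h1 h2) h3, hg.mul _ _ h1 h2,
      hg.mul _ _ (pow_ne_zero 3 hS0) (mul_ne_zero h4 h5), gS, hg.mul _ _ h4 h5, one_mul] at this
    exact this
  rcases lt_or_gt_of_ne hC0 with hCn | hCp
  · have c1 : 1 ≤ -C := by linarith
    obtain ⟨a1, b1⟩ := vneg (C * N1) (by
      have := mul_le_of_pos c1 (by linarith) bN1
      linarith)
    obtain ⟨a2, b2⟩ := vpos (C * N2) (by
      have := mul_le_of_pos c1 (by linarith) (show r ≤ -N2 by linarith)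
      linarith)
    obtain ⟨a3, b3⟩ := vpos (C * N3) (by
      have := mul_le_of_pos c1 (by linarith) (show r ≤ -N3 by linarith)
      linarith)
    obtain ⟨a4, b4⟩ := vpos (C * M1) (by
      have := mul_le_of_pos c1 (by linarith) (show r ≤ -M1 by linarith)
      linarith)
    obtain ⟨a5, b5⟩ := vneg M2 (by linarith)
    have h := grel b1 b2 b3 b4 b5 rel
    rw [a1, a2, a3, a4, a5] at h
    rcases hs0 with h1 | h1
    · exact h1
    · exfalso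
      rcases hs0' with h2 | h2 <;> rw [h1, h2] at h <;> norm_num at h
  · have c1 : 1 ≤ C := by linarith
    obtain ⟨a1, b1⟩ := vpos (C * N1) (mul_le_of_pos c1 (by linarith) bN1)
    obtain ⟨a2, b2⟩ := vneg (C * N2) (by
      have := mul_le_of_pos c1 (by linarith) (show r ≤ -N2 by linarith)
      linarith)
    obtain ⟨a3, b3⟩ := vneg (C * N3) (by
      have := mul_le_of_pos c1 (by linarith) (show r ≤ -N3 by linarith)
      linarith)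
    obtain ⟨a4, b4⟩ := vneg (C * M1) (by
      have := mul_le_of_pos c1 (by linarith) (show r ≤ -M1 by linarith)
      linarith)
    obtain ⟨a5, b5⟩ := vneg M2 (by linarith)
    have h := grel b1 b2 b3 b4 b5 rel
    rw [a1, a2, a3, a4, a5] at h
    rcases hs0 with h1 | h1
    · exact h1
    · exfalso
      rcases hs0' with h2 | h2 <;> rw [h1, h2] at h <;> norm_num at h

lemma key (hg : Good g) {k x y s s' : ℤ} (hk : k ≠ 0) (hx : x ≠ 0) (hy : y ≠ 0)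
    (h2 : x ^ 3 - 2 * (k * y ^ 3) ≠ 0)
    (hs0 : s = 1 ∨ s = -1) (hs0' : s' = 1 ∨ s' = -1)
    (hs : E g (k * (-(k * x ^ 8 * y ^ 4 * ((x ^ 3 - 2 * (k * y ^ 3)) * (x ^ 3 - k * y ^ 3)))) ^ 3) s)
    (hs' : E g (-(k * (-(k * x ^ 8 * y ^ 4 *
      ((x ^ 3 - 2 * (k * y ^ 3)) * (x ^ 3 - k * y ^ 3)))) ^ 3)) s') : s = 1 := by
  have e : k * (-(k * x ^ 8 * y ^ 4 * ((x ^ 3 - 2 * (k * y ^ 3)) * (x ^ 3 - k * y ^ 3)))) ^ 3
      = ((x ^ 3) ^ 2 * ((k * y ^ 3) * (x ^ 3 - 2 * (k * y ^ 3)))) ^ 3 *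
        ((k * y ^ 3) * (x ^ 3) ^ 2 * ((k * y ^ 3) - x ^ 3) ^ 3) := by ring
  rw [e] at hs hs'
  exact keyAB hg (mul_ne_zero hk (pow_ne_zero 3 hy)) (pow_ne_zero 3 hx) h2 hs0 hs0' hs hs'

/-- The values `k y ^ 3` and `-k y ^ 3` all have eventually constant sign. -/
def St (g : ℤ → ℤ) (k α β : ℤ) : Prop :=
  ∀ y : ℤ, 0 < y → E g (k * y ^ 3) (g y * α) ∧ E g (-(k * y ^ 3)) (g y * β)

lemma pm_mul {a b : ℤ} (ha : a = 1 ∨ a = -1) (hb : b = 1 ∨ b = -1) : a * b = 1 ∨ a * b = -1 := by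
  rcases ha with h | h <;> rcases hb with h' | h' <;> rw [h, h'] <;> norm_num

lemma pm_sq {a : ℤ} (ha : a = 1 ∨ a = -1) : a * a = 1 := by
  rcases ha with h | h <;> rw [h] <;> norm_num

lemma R (hg : Good g) {k α β x y : ℤ} (hk : 0 < k) (hα : α = 1 ∨ α = -1) (hβ : β = 1 ∨ β = -1)
    (h : St g k α β) (hx : x ≠ 0) (hy : 0 < y) :
    (0 < (x ^ 3 - 2 * (k * y ^ 3)) * (x ^ 3 - k * y ^ 3) →
      g k * (g (x ^ 3 - 2 * (k * y ^ 3)) * g (x ^ 3 - k * y ^ 3)) = β) ∧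
    ((x ^ 3 - 2 * (k * y ^ 3)) * (x ^ 3 - k * y ^ 3) < 0 →
      g k * (g (x ^ 3 - 2 * (k * y ^ 3)) * g (x ^ 3 - k * y ^ 3)) = α) := by
  obtain ⟨p, hp⟩ : ∃ p : ℤ, p = x ^ 3 - 2 * (k * y ^ 3) := ⟨_, rfl⟩
  obtain ⟨q, hq⟩ : ∃ q : ℤ, q = x ^ 3 - k * y ^ 3 := ⟨_, rfl⟩
  have hkey := fun (s s' : ℤ) => key hg (s := s) (s' := s') hk.ne' hx hy.ne'
  rw [← hp, ← hq] at hkey ⊢
  have hD : ∀ w : ℤ, w ≠ 0 → g (k * x ^ 8 * y ^ 4 * w) = g k * g w := by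
    intro w hw
    have e8 : g (x ^ 8) = 1 := hg.pow_two_even hx 4
    have e4 : g (y ^ 4) = 1 := hg.pow_two_even hy.ne' 2
    rw [hg.mul _ _ (mul_ne_zero (mul_ne_zero hk.ne' (pow_ne_zero 8 hx)) (pow_ne_zero 4 hy.ne')) hw,
      hg.mul _ _ (mul_ne_zero hk.ne' (pow_ne_zero 8 hx)) (pow_ne_zero 4 hy.ne'),
      hg.mul _ _ hk.ne' (pow_ne_zero 8 hx), e8, e4, mul_one, mul_one]
  have hx8 : 0 < x ^ 8 := by positivity
  have hkp : 0 < k * x ^ 8 * y ^ 4 := by positivity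
  constructor
  · intro hpos
    have hne : p * q ≠ 0 := hpos.ne'
    have hp0 : p ≠ 0 := left_ne_zero_of_mul hne
    have hq0 : q ≠ 0 := right_ne_zero_of_mul hne
    obtain ⟨hE1, hE2⟩ := h (k * x ^ 8 * y ^ 4 * (p * q)) (mul_pos hkp hpos)
    have e1 : -(k * (k * x ^ 8 * y ^ 4 * (p * q)) ^ 3)
        = k * (-(k * x ^ 8 * y ^ 4 * (p * q))) ^ 3 := by ring
    have e2 : k * (k * x ^ 8 * y ^ 4 * (p * q)) ^ 3
        = -(k * (-(k * x ^ 8 * y ^ 4 * (p * q))) ^ 3) := by ring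
    rw [e2] at hE1
    rw [e1] at hE2
    have h3 := hkey _ _ hp0 (pm_mul (hg.val _) hβ) (pm_mul (hg.val _) hα) hE2 hE1
    rw [hD _ hne, hg.mul _ _ hp0 hq0] at h3
    have h4 := pm_sq hβ
    calc g k * (g p * g q) = g k * (g p * g q) * (β * β) := by rw [h4, mul_one]
      _ = (g k * (g p * g q) * β) * β := by ring
      _ = β := by rw [h3, one_mul]
  · intro hneg
    have hne : p * q ≠ 0 := hneg.ne
    have hp0 : p ≠ 0 := left_ne_zero_of_mul hne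
    have hq0 : q ≠ 0 := right_ne_zero_of_mul hne
    have hpos : 0 < k * x ^ 8 * y ^ 4 * (-(p * q)) := mul_pos hkp (by linarith)
    obtain ⟨hE1, hE2⟩ := h (k * x ^ 8 * y ^ 4 * (-(p * q))) hpos
    have e0 : k * x ^ 8 * y ^ 4 * (-(p * q)) = -(k * x ^ 8 * y ^ 4 * (p * q)) := by ring
    rw [e0] at hE1 hE2
    have h3 := hkey _ _ hp0 (pm_mul (hg.val _) hα) (pm_mul (hg.val _) hβ) hE1 hE2
    rw [hg.neg, hD _ hne, hg.mul _ _ hp0 hq0] at h3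
    have h4 := pm_sq hα
    calc g k * (g p * g q) = g k * (g p * g q) * (α * α) := by rw [h4, mul_one]
      _ = (g k * (g p * g q) * α) * α := by ring
      _ = α := by rw [h3, one_mul]

end Pool.Agent.H410R4.PC
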