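import Mathlib
import Pool.Agent.H410R4.PCc

set_option autoImplicit false

namespace Pool.Agent.H410R4.PC

variable {g : ℤ → ℤ}

lemma step (hg : Good g) {k α β : ℤ} (hk : 0 < k) (hα : α = 1 ∨ α = -1) (hβ : β = 1 ∨ β = -1)
    (h : St g k α β) : St g (2 * k) (α * β * g k) (g k) := by
  intro y hy
  obtain ⟨⟨M1, hM1⟩, ⟨M2, hM2⟩⟩ := h y hy
  have hky : 0 < k * y ^ 3 := by positivity
  have sk := hg.sq k
  have sy := hg.sq y
  have sa := pm_sq hα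
  have sb := pm_sq hβ
  constructor
  · refine ⟨max M1 1, fun m hm => ?_⟩
    have hm1 : M1 ≤ m := le_trans (le_max_left _ _) hm
    have hm2 : 0 < m := by linarith [le_trans (le_max_right M1 1) hm]
    have hm3 : 0 < m ^ 3 := by positivity
    have hR := (R hg hk hα hβ h (x := -m) (neg_ne_zero.mpr hm2.ne') hy).1
    have e1 : (-m) ^ 3 - 2 * (k * y ^ 3) = -(m ^ 3 + 2 * k * y ^ 3) := by ring
    have e2 : (-m) ^ 3 - k * y ^ 3 = -(m ^ 3 + k * y ^ 3) := by ring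
    rw [e1, e2, neg_mul_neg, hg.neg, hg.neg, hM1 m hm1] at hR
    have hR' := hR (mul_pos (by linarith) (by linarith))
    obtain ⟨t, ht⟩ : ∃ t : ℤ, t = g (m ^ 3 + 2 * k * y ^ 3) := ⟨_, rfl⟩
    rw [← ht] at hR' ⊢
    calc t = t * ((g k * g k) * (g y * g y) * (α * α)) := by rw [sk, sy, sa]; ring
      _ = (g k * (t * (g y * α))) * (g k * g y * α) := by ring
      _ = g y * (α * β * g k) := by rw [hR']; ring
  · refine ⟨max M2 (2 * (k * y ^ 3) + 1), fun m hm => ?_⟩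
    have hm1 : M2 ≤ m := le_trans (le_max_left _ _) hm
    have hm2 : 2 * (k * y ^ 3) + 1 ≤ m := le_trans (le_max_right _ _) hm
    have hm0 : 0 < m := by linarith
    have hm3 : m ≤ m ^ 3 := le_cube (by linarith)
    have hR := (R hg hk hα hβ h (x := m) hm0.ne' hy).1
    have hR' := hR (mul_pos (by linarith) (by linarith))
    have e1 : m ^ 3 - 2 * (k * y ^ 3) = m ^ 3 + -(2 * k * y ^ 3) := by ring
    have e2 : m ^ 3 - k * y ^ 3 = m ^ 3 + -(k * y ^ 3) := by ring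
    rw [e1, e2, hM2 m hm1] at hR'
    obtain ⟨t, ht⟩ : ∃ t : ℤ, t = g (m ^ 3 + -(2 * k * y ^ 3)) := ⟨_, rfl⟩
    rw [← ht] at hR' ⊢
    calc t = t * ((g k * g k) * (g y * g y) * (β * β)) := by rw [sk, sy, sb]; ring
      _ = (g k * (t * (g y * β))) * (g k * g y * β) := by ring
      _ = g y * g k * (β * β) := by rw [hR']; ring
      _ = g y * g k := by rw [sb, mul_one]

lemma g_two_mul (hg : Good g) {a : ℤ} (ha : a ≠ 0) : g (2 * a) = -g a := by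
  rw [hg.mul _ _ two_ne_zero ha, hg.two]; ring

lemma beta (hg : Good g) {k α β : ℤ} (hk : 0 < k) (hα : α = 1 ∨ α = -1) (hβ : β = 1 ∨ β = -1)
    (h : St g k α β) : β = -g k := by
  have h1 := step hg hk hα hβ h
  have h2 := step hg (k := 2 * k) (by linarith) (pm_mul (pm_mul hα hβ) (hg.val _)) (hg.val _) h1
  have h3 := step hg (k := 2 * (2 * k)) (by linarith)
    (pm_mul (pm_mul (pm_mul (pm_mul hα hβ) (hg.val _)) (hg.val _)) (hg.val _)) (hg.val _) h2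
  have E1 := (h3 1 one_pos).2
  have E2 := (h 2 two_pos).2
  have e : -(2 * (2 * (2 * k)) * 1 ^ 3) = -(k * 2 ^ 3) := by ring
  rw [e] at E1
  have h4 := E_unique E1 E2
  rw [hg.one, one_mul, g_two_mul hg (by positivity), g_two_mul hg hk.ne', hg.two] at h4
  linarith

lemma iter (hg : Good g) {k α β : ℤ} (hk : 0 < k) (hα : α = 1 ∨ α = -1) (hβ : β = 1 ∨ β = -1)
    (h : St g k α β) : ∀ i : ℕ, St g (2 ^ i * k) ((-1) ^ i * α) (-g (2 ^ i * k))
  | 0 => by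
    have hb := beta hg hk hα hβ h
    simpa [← hb] using h
  | i + 1 => by
    have ih := iter hg hk hα hβ h i
    have hw : 0 < 2 ^ i * k := by positivity
    have ha' : (-1) ^ i * α = 1 ∨ (-1) ^ i * α = -1 := by
      rcases neg_one_pow_eq_or ℤ i with h1 | h1 <;> rcases hα with h2 | h2 <;> rw [h1, h2] <;>
        norm_num
    have hb' : -g (2 ^ i * k) = 1 ∨ -g (2 ^ i * k) = -1 := by
      rcases hg.val (2 ^ i * k) with h1 | h1 <;> rw [h1] <;> norm_num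
    have h1 := step hg hw ha' hb' ih
    have e1 : (2:ℤ) ^ (i + 1) * k = 2 * (2 ^ i * k) := by ring
    rw [e1, g_two_mul hg hw.ne', neg_neg]
    have e2 : (-1:ℤ) ^ (i + 1) * α = (-1) ^ i * α * -g (2 ^ i * k) * g (2 ^ i * k) := by
      have := hg.sq (2 ^ i * k)
      calc (-1:ℤ) ^ (i + 1) * α = -((-1) ^ i * α) * 1 := by ring
        _ = -((-1) ^ i * α) * (g (2 ^ i * k) * g (2 ^ i * k)) := by rw [this]
        _ = _ := by ring
    rw [e2]
    exact h1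

lemma g_pow_mul (hg : Good g) {a : ℤ} (ha : a ≠ 0) (n : ℕ) : g (2 ^ n * a) = (-1) ^ n * g a := by
  rw [hg.mul _ _ (pow_ne_zero n two_ne_zero) ha, hg.two_pow]

lemma same (hg : Good g) {k α β : ℤ} (hk : 0 < k) (hα : α = 1 ∨ α = -1) (hβ : β = 1 ∨ β = -1)
    (h : St g k α β) {X : ℤ} (hX : X ≠ 0) (i : ℕ)
    (hp : 0 < (X ^ 3 - 2 ^ (i + 1) * (27 * k)) * (X ^ 3 - 2 ^ i * (27 * k))) :
    g (X ^ 3 - 2 ^ (i + 1) * (27 * k)) = -g (X ^ 3 - 2 ^ i * (27 * k)) := by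
  have hw : 0 < 2 ^ i * k := by positivity
  have ha' : (-1) ^ i * α = 1 ∨ (-1) ^ i * α = -1 := by
    rcases neg_one_pow_eq_or ℤ i with h1 | h1 <;> rcases hα with h2 | h2 <;> rw [h1, h2] <;>
      norm_num
  have hb' : -g (2 ^ i * k) = 1 ∨ -g (2 ^ i * k) = -1 := by
    rcases hg.val (2 ^ i * k) with h1 | h1 <;> rw [h1] <;> norm_num
  have hR := (R hg hw ha' hb' (iter hg hk hα hβ h i) hX (show (0:ℤ) < 3 by norm_num)).1
  have e1 : X ^ 3 - 2 * (2 ^ i * k * 3 ^ 3) = X ^ 3 - 2 ^ (i + 1) * (27 * k) := by ring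
  have e2 : X ^ 3 - 2 ^ i * k * 3 ^ 3 = X ^ 3 - 2 ^ i * (27 * k) := by ring
  rw [e1, e2] at hR
  have hR' := hR hp
  obtain ⟨p, hp'⟩ : ∃ p : ℤ, p = g (X ^ 3 - 2 ^ (i + 1) * (27 * k)) := ⟨_, rfl⟩
  have sq := hg.sq (X ^ 3 - 2 ^ i * (27 * k))
  have sw := hg.sq (2 ^ i * k)
  obtain ⟨q, hq'⟩ : ∃ q : ℤ, q = g (X ^ 3 - 2 ^ i * (27 * k)) := ⟨_, rfl⟩
  obtain ⟨w, hw'⟩ : ∃ w : ℤ, w = g (2 ^ i * k) := ⟨_, rfl⟩
  rw [← hp', ← hq', ← hw'] at hR'
  rw [← hq'] at sq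
  rw [← hw'] at sw
  rw [← hp', ← hq']
  calc p = p * ((w * w) * (q * q)) := by rw [sw, sq]; ring
    _ = (w * (p * q)) * (w * q) := by ring
    _ = -w * (w * q) := by rw [hR']
    _ = -((w * w) * q) := by ring
    _ = -q := by rw [sw, one_mul]

lemma opp (hg : Good g) {k α β : ℤ} (hk : 0 < k) (hα : α = 1 ∨ α = -1) (hβ : β = 1 ∨ β = -1)
    (h : St g k α β) {X : ℤ} (hX : X ≠ 0) (i : ℕ)
    (hp : (X ^ 3 - 2 ^ (i + 1) * (27 * k)) * (X ^ 3 - 2 ^ i * (27 * k)) < 0) :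
    g (X ^ 3 - 2 ^ (i + 1) * (27 * k)) = (α * g k) * g (X ^ 3 - 2 ^ i * (27 * k)) := by
  have hw : 0 < 2 ^ i * k := by positivity
  have ha' : (-1) ^ i * α = 1 ∨ (-1) ^ i * α = -1 := by
    rcases neg_one_pow_eq_or ℤ i with h1 | h1 <;> rcases hα with h2 | h2 <;> rw [h1, h2] <;>
      norm_num
  have hb' : -g (2 ^ i * k) = 1 ∨ -g (2 ^ i * k) = -1 := by
    rcases hg.val (2 ^ i * k) with h1 | h1 <;> rw [h1] <;> norm_num
  have hR := (R hg hw ha' hb' (iter hg hk hα hβ h i) hX (show (0:ℤ) < 3 by norm_num)).2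
  have e1 : X ^ 3 - 2 * (2 ^ i * k * 3 ^ 3) = X ^ 3 - 2 ^ (i + 1) * (27 * k) := by ring
  have e2 : X ^ 3 - 2 ^ i * k * 3 ^ 3 = X ^ 3 - 2 ^ i * (27 * k) := by ring
  rw [e1, e2, g_pow_mul hg hk.ne'] at hR
  have hR' := hR hp
  have sq := hg.sq (X ^ 3 - 2 ^ i * (27 * k))
  have sk := hg.sq k
  obtain ⟨p, hp'⟩ : ∃ p : ℤ, p = g (X ^ 3 - 2 ^ (i + 1) * (27 * k)) := ⟨_, rfl⟩
  obtain ⟨q, hq'⟩ : ∃ q : ℤ, q = g (X ^ 3 - 2 ^ i * (27 * k)) := ⟨_, rfl⟩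
  rw [← hp', ← hq'] at hR'
  rw [← hq'] at sq
  rw [← hp', ← hq']
  have hR2 : g k * (p * q) = α := by
    rcases neg_one_pow_eq_or ℤ i with h1 | h1 <;> rw [h1] at hR' <;> linarith
  calc p = p * ((g k * g k) * (q * q)) := by rw [sk, sq]; ring
    _ = (g k * (p * q)) * (g k * q) := by ring
    _ = α * g k * q := by rw [hR2]; ring

lemma chain_neg (hg : Good g) {k α β : ℤ} (hk : 0 < k) (hα : α = 1 ∨ α = -1)
    (hβ : β = 1 ∨ β = -1) (h : St g k α β) {X : ℤ} (hX : 0 < X) :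
    ∀ n : ℕ, g (X ^ 3 + 2 ^ n * (27 * k)) = (-1) ^ n * g (X ^ 3 + 27 * k)
  | 0 => by simp
  | n + 1 => by
    have ih := chain_neg hg hk hα hβ h hX n
    have hX3 : 0 < X ^ 3 := by positivity
    have h1 : 0 < 2 ^ n * (27 * k) := by positivity
    have h2 : 0 < 2 ^ (n + 1) * (27 * k) := by positivity
    have hs := same hg hk hα hβ h (X := -X) (neg_ne_zero.mpr hX.ne') n
    have e1 : (-X) ^ 3 - 2 ^ (n + 1) * (27 * k) = -(X ^ 3 + 2 ^ (n + 1) * (27 * k)) := by ring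
    have e2 : (-X) ^ 3 - 2 ^ n * (27 * k) = -(X ^ 3 + 2 ^ n * (27 * k)) := by ring
    rw [e1, e2, neg_mul_neg, hg.neg, hg.neg] at hs
    rw [hs (mul_pos (by linarith) (by linarith)), ih]
    ring

lemma chain_pos (hg : Good g) {k α β : ℤ} (hk : 0 < k) (hα : α = 1 ∨ α = -1)
    (hβ : β = 1 ∨ β = -1) (h : St g k α β) {X : ℤ} (hX : 0 < X) :
    ∀ n : ℕ, 2 ^ n * (27 * k) < X ^ 3 →
      g (X ^ 3 - 2 ^ n * (27 * k)) = (-1) ^ n * g (X ^ 3 - 27 * k)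
  | 0 => by simp
  | n + 1 => by
    intro hn
    have h1 : 0 < 2 ^ n * (27 * k) := by positivity
    have e0 : (2:ℤ) ^ (n + 1) * (27 * k) = 2 * (2 ^ n * (27 * k)) := by ring
    have hn' : 2 ^ n * (27 * k) < X ^ 3 := by rw [e0] at hn; linarith
    have ih := chain_pos hg hk hα hβ h hX n hn'
    have hs := same hg hk hα hβ h (X := X) hX.ne' n (mul_pos (by linarith) (by linarith))
    rw [hs, ih]
    ring

lemma chain_cross (hg : Good g) {k α β : ℤ} (hk : 0 < k) (hα : α = 1 ∨ α = -1)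
    (hβ : β = 1 ∨ β = -1) (h : St g k α β) {X : ℤ} (hX : 0 < X)
    (hne : ∀ n : ℕ, X ^ 3 ≠ 2 ^ n * (27 * k)) (h0 : 27 * k < X ^ 3) :
    ∀ n : ℕ, X ^ 3 < 2 ^ n * (27 * k) →
      g (X ^ 3 - 2 ^ n * (27 * k)) = -((-1) ^ n * (α * g k) * g (X ^ 3 - 27 * k))
  | 0 => by
    intro hn
    rw [pow_zero, one_mul] at hn
    exact absurd h0 (not_lt.mpr hn.le)
  | n + 1 => by
    intro hn
    rcases lt_trichotomy (X ^ 3) (2 ^ n * (27 * k)) with h1 | h1 | h1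
    · have ih := chain_cross hg hk hα hβ h hX hne h0 n h1
      have hs := same hg hk hα hβ h (X := X) hX.ne' n
        (mul_pos_of_neg_of_neg (by linarith) (by linarith))
      rw [hs, ih]
      ring
    · exact absurd h1 (hne n)
    · have ih := chain_pos hg hk hα hβ h hX n h1
      have hs := opp hg hk hα hβ h (X := X) hX.ne' n
        (mul_neg_of_neg_of_pos (by linarith) (by linarith))
      rw [hs, ih]
      ring

end Pool.Agent.H410R4.PC
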