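import Mathlib
import Pool.Agent.H410R4.PCd

set_option autoImplicit false

namespace Pool.Agent.H410R4.PC

variable {g : ℤ → ℤ}

lemma exists_pow_ge (N : ℤ) : ∃ j : ℕ, N ≤ 2 ^ j := by
  refine ⟨N.toNat, ?_⟩
  have h1 : ((N.toNat : ℕ) : ℤ) < 2 ^ N.toNat := by exact_mod_cast Nat.lt_two_pow_self
  have h2 : N ≤ (N.toNat : ℤ) := Int.self_le_toNat N
  linarith

lemma pm_cancel {c a b : ℤ} (hc : c = 1 ∨ c = -1) (h : c * a = c * b) : a = b := by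
  rcases hc with h1 | h1 <;> rw [h1] at h <;> linarith

lemma noSt (hg : Good g) {k α β : ℤ} (hk : 0 < k) (hα : α = 1 ∨ α = -1)
    (hβ : β = 1 ∨ β = -1) (h : St g k α β) : False := by
  have hb := beta hg hk hα hβ h
  obtain ⟨⟨Ma, hMa⟩, ⟨Mb, hMb⟩⟩ := h 3 (by norm_num)
  obtain ⟨j, hj⟩ := exists_pow_ge (max (max Ma Mb) (27 * k + 1))
  have hj1 : Ma ≤ 2 ^ j := le_trans (le_trans (le_max_left _ _) (le_max_left _ _)) hj
  have hj2 : Mb ≤ 2 ^ j := le_trans (le_trans (le_max_right _ _) (le_max_left _ _)) hj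
  have hj3 : 27 * k + 1 ≤ 2 ^ j := le_trans (le_max_right _ _) hj
  obtain ⟨X, hXdef⟩ : ∃ X : ℤ, X = 2 ^ j := ⟨_, rfl⟩
  rw [← hXdef] at hj1 hj2 hj3
  have hX : 0 < X := by linarith
  have hX3 : X ^ 3 = 2 ^ (j * 3) := by rw [hXdef, ← pow_mul]
  have hXX : X ≤ X ^ 3 := le_cube (by linarith)
  have hpm : ((-1:ℤ) ^ (j * 3)) = 1 ∨ ((-1:ℤ) ^ (j * 3)) = -1 := neg_one_pow_eq_or ℤ _
  have hP : (0:ℤ) < 2 ^ (j * 3) := by positivity
  have hA0 : (1:ℤ) + 27 * k ≠ 0 := by intro h0; linarith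
  have hB0 : (1:ℤ) - 27 * k ≠ 0 := by intro h0; linarith
  -- (a)
  have a1 := chain_neg hg hk hα hβ h hX (j * 3)
  have a2 : X ^ 3 + 2 ^ (j * 3) * (27 * k) = 2 ^ (j * 3) * (1 + 27 * k) := by rw [hX3]; ring
  have a3 : X ^ 3 + 27 * k = X ^ 3 + k * 3 ^ 3 := by ring
  rw [a2, g_pow_mul hg hA0, a3, hMa X hj1] at a1
  have a4 : g (1 + 27 * k) = g 3 * α := pm_cancel hpm a1
  -- (b)
  have hne : ∀ n : ℕ, X ^ 3 ≠ 2 ^ n * (27 * k) := by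
    intro n hn
    have h3 : (3:ℤ) ∣ X ^ 3 := by
      rw [hn]
      exact ⟨2 ^ n * (9 * k), by ring⟩
    have h4 : (3:ℤ) ∣ X := Int.prime_three.dvd_of_dvd_pow h3
    rw [hXdef] at h4
    have h5 : (3:ℤ) ∣ 2 := Int.prime_three.dvd_of_dvd_pow h4
    norm_num at h5
  have b1 := chain_cross hg hk hα hβ h hX hne (by linarith) (j * 3) (by
    rw [hX3]
    have : (2:ℤ) ^ (j * 3) * 1 < 2 ^ (j * 3) * (27 * k) := mul_lt_mul_of_pos_left (by linarith) hP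
    linarith)
  have b2 : X ^ 3 - 2 ^ (j * 3) * (27 * k) = 2 ^ (j * 3) * (1 - 27 * k) := by rw [hX3]; ring
  have b3 : X ^ 3 - 27 * k = X ^ 3 + -(k * 3 ^ 3) := by ring
  rw [b2, g_pow_mul hg hB0, b3, hMb X hj2] at b1
  have b4 : g (1 - 27 * k) = -((α * g k) * (g 3 * β)) := by
    apply pm_cancel hpm
    rw [b1]; ring
  -- (c)
  have hW : 1 < 27 * k := by linarith
  have hX' : 0 < X * (27 * k) := mul_pos hX (by linarith)
  have hXle : X ≤ X * (27 * k) := le_mul_of_one_le_right hX.le hW.le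
  have c1 := chain_pos hg hk hα hβ h hX' (j * 3) (by
    have e : (X * (27 * k)) ^ 3 = 2 ^ (j * 3) * (27 * k) ^ 3 := by rw [mul_pow, hX3]
    rw [e]
    apply mul_lt_mul_of_pos_left _ hP
    have h1 : 27 * k < (27 * k) ^ 2 := by nlinarith
    have h2 : (27 * k) ^ 2 < (27 * k) ^ 3 := by nlinarith
    linarith)
  have c2 : (X * (27 * k)) ^ 3 - 2 ^ (j * 3) * (27 * k)
      = 2 ^ (j * 3) * (-(3 ^ 3 * k * ((1 + 27 * k) * (1 - 27 * k)))) := by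
    rw [mul_pow, hX3]; ring
  have c3 : (X * (27 * k)) ^ 3 - 27 * k = (X * (27 * k)) ^ 3 + -(k * 3 ^ 3) := by ring
  have hk3 : (3:ℤ) ^ 3 * k ≠ 0 := by positivity
  rw [c2, g_pow_mul hg (neg_ne_zero.mpr (mul_ne_zero hk3 (mul_ne_zero hA0 hB0))), hg.neg, c3,
    hMb _ (le_trans hj2 hXle), hg.mul _ _ hk3 (mul_ne_zero hA0 hB0), hg.mul _ _ hA0 hB0,
    hg.mul _ _ (by norm_num) hk.ne', hg.pow3 (by norm_num : (3:ℤ) ≠ 0)] at c1
  have c4 := pm_cancel hpm c1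
  rw [a4, b4, hb] at c4
  have s3 := hg.sq 3
  have sk := hg.sq k
  have sa := pm_sq hα
  have c5 : g 3 * g k * (g 3 * α * -(α * g k * (g 3 * -g k))) = g 3 * g k := by
    calc g 3 * g k * (g 3 * α * -(α * g k * (g 3 * -g k)))
        = (g 3 * g 3) * (g k * g k) * (α * α) * (g 3 * g k) := by ring
      _ = g 3 * g k := by rw [s3, sk, sa]; ring
  rw [c5] at c4
  rcases hg.val 3 with h1 | h1 <;> rcases hg.val k with h2 | h2 <;> rw [h1, h2] at c4 <;>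
    norm_num at c4

lemma noH (hg : Good g) {k : ℤ} (hk : 0 < k)
    (H : ∀ d : ℤ, d ≠ 0 → ∃ s : ℤ, (s = 1 ∨ s = -1) ∧ E g (k * d ^ 3) s) : False := by
  obtain ⟨α, hα, E1⟩ := H 1 one_ne_zero
  obtain ⟨β, hβ, E2⟩ := H (-1) (by norm_num)
  apply noSt hg hk hα hβ
  intro y hy
  obtain ⟨s, hs, E3⟩ := H y hy.ne'
  obtain ⟨t, ht, E4⟩ := H (-y) (neg_ne_zero.mpr hy.ne')
  have e1 : k * y ^ 3 = k * 1 ^ 3 * y ^ 3 := by ring
  have e2 : k * (-y) ^ 3 = k * (-1) ^ 3 * y ^ 3 := by ring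
  have e3 : k * (-y) ^ 3 = -(k * y ^ 3) := by ring
  have f1 := E_scale hg hy E1 (by rw [← e1]; exact E3)
  have f2 := E_scale hg hy E2 (by rw [← e2]; exact E4)
  rw [e3] at E4
  exact ⟨f1 ▸ E3, f2 ▸ E4⟩

lemma both_pos (hg : Good g) {k : ℤ} (hk : 0 < k) :
    ∃ d : ℤ, d ≠ 0 ∧ ∀ s : ℤ, (s = 1 ∨ s = -1) → ∀ M : ℤ, ∃ m : ℤ, M ≤ m ∧
      g (m ^ 3 + k * d ^ 3) = s := by
  by_contra hcon
  push Not at hcon
  apply noH hg hk
  intro d hd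
  obtain ⟨s, hs, M, hM⟩ := hcon d hd
  refine ⟨-s, ?_, M, fun m hm => ?_⟩
  · rcases hs with h | h <;> rw [h] <;> norm_num
  · have h1 := hM m hm
    rcases hs with h | h <;> rcases hg.val (m ^ 3 + k * d ^ 3) with h2 | h2 <;>
      rw [h] at h1 ⊢ <;> rw [h2] at h1 ⊢ <;> simp_all

lemma both (hg : Good g) {k : ℤ} (hk : k ≠ 0) :
    ∃ d : ℤ, d ≠ 0 ∧ ∀ s : ℤ, (s = 1 ∨ s = -1) → ∀ M : ℤ, ∃ m : ℤ, M ≤ m ∧
      g (m ^ 3 + k * d ^ 3) = s := by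
  rcases lt_or_gt_of_ne hk with h | h
  · obtain ⟨d, hd, hd'⟩ := both_pos hg (k := -k) (by linarith)
    refine ⟨-d, neg_ne_zero.mpr hd, fun s hs M => ?_⟩
    obtain ⟨m, hm, hm'⟩ := hd' s hs M
    refine ⟨m, hm, ?_⟩
    rw [← hm']
    congr 1
    ring
  · exact both_pos hg h

lemma both_mult (hg : Good g) {k : ℤ} (hk : k ≠ 0) :
    ∃ d : ℤ, d ≠ 0 ∧ ∀ e : ℤ, 0 < e → ∀ s : ℤ, (s = 1 ∨ s = -1) → ∀ M : ℤ, ∃ m : ℤ, M ≤ m ∧
      g (m ^ 3 + k * (d * e) ^ 3) = s := by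
  obtain ⟨d, hd, hd'⟩ := both hg hk
  refine ⟨d, hd, fun e he s hs M => ?_⟩
  have hes : g e * s = 1 ∨ g e * s = -1 := pm_mul (hg.val e) hs
  obtain ⟨m, hm, hm'⟩ := hd' (g e * s) hes (max M (|k * d ^ 3| + 1))
  have hm1 : M ≤ m := le_trans (le_max_left _ _) hm
  have hm3 : |k * d ^ 3| < m := lt_of_lt_of_le (lt_add_one _) (le_trans (le_max_right _ _) hm)
  have hmpos : 0 < m := lt_of_le_of_lt (abs_nonneg _) hm3
  refine ⟨e * m, le_mul_pos he hmpos hm1, ?_⟩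
  have h3 : (e * m) ^ 3 + k * (d * e) ^ 3 = e ^ 3 * (m ^ 3 + k * d ^ 3) := by ring
  rw [h3, hg.mul _ _ (pow_ne_zero 3 he.ne') (ne_of_gt (cube_add_pos hm3)), hg.pow3 he.ne', hm']
  have := hg.sq e
  calc g e * (g e * s) = (g e * g e) * s := by ring
    _ = s := by rw [this, one_mul]

end Pool.Agent.H410R4.PC
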