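import Mathlib
import Pool.Agent.H410R4.PCe

set_option autoImplicit false

namespace Pool.Agent.H410R4.PC

open Classical in
/-- The number of prime factors of `n` that lie in the set `P`, counted with multiplicity. -/
noncomputable def omegaIn (P : Set ℕ) (n : ℕ) : ℕ :=
  (n.primeFactorsList.filter (fun p => decide (p ∈ P))).length

/-- the sign `(-1)` to the number of prime factors in `P` -/
noncomputable def gP (P : Set ℕ) (a : ℤ) : ℤ := (-1) ^ omegaIn P a.natAbs

lemma omegaIn_mul (P : Set ℕ) {a b : ℕ} (ha : a ≠ 0) (hb : b ≠ 0) :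
    omegaIn P (a * b) = omegaIn P a + omegaIn P b := by
  classical
  unfold omegaIn
  rw [((Nat.perm_primeFactorsList_mul ha hb).filter _).length_eq, List.filter_append,
    List.length_append]

lemma omegaIn_two {P : Set ℕ} (h2 : 2 ∈ P) : omegaIn P 2 = 1 := by
  classical
  unfold omegaIn
  rw [Nat.primeFactorsList_prime Nat.prime_two]
  simp [h2]

lemma good_gP {P : Set ℕ} (h2 : 2 ∈ P) : Good (gP P) where
  mul := by
    intro a b ha hb
    unfold gP
    rw [Int.natAbs_mul, omegaIn_mul P (Int.natAbs_ne_zero.mpr ha) (Int.natAbs_ne_zero.mpr hb),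
      pow_add]
  val := fun a => neg_one_pow_eq_or ℤ _
  neg := by
    intro a
    unfold gP
    rw [Int.natAbs_neg]
  two := by
    have : ((2:ℤ)).natAbs = 2 := rfl
    unfold gP
    rw [this, omegaIn_two h2, pow_one]

lemma gP_one_iff (P : Set ℕ) (a : ℤ) : gP P a = 1 ↔ Even (omegaIn P a.natAbs) := by
  unfold gP
  constructor
  · intro h
    by_contra hn
    rw [Nat.not_even_iff_odd] at hn
    rw [hn.neg_one_pow] at h
    norm_num at h
  · intro h
    exact h.neg_one_pow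

lemma gP_neg_one_iff (P : Set ℕ) (a : ℤ) : gP P a = -1 ↔ Odd (omegaIn P a.natAbs) := by
  unfold gP
  constructor
  · intro h
    by_contra hn
    rw [Nat.not_odd_iff_even] at hn
    rw [hn.neg_one_pow] at h
    norm_num at h
  · intro h
    exact h.neg_one_pow

lemma infinite_of {p : ℤ → Prop} (h : ∀ M : ℤ, ∃ m : ℤ, M ≤ m ∧ p m) :
    {m : ℕ | p m}.Infinite := by
  rw [Set.infinite_iff_exists_gt]
  intro a
  obtain ⟨m, hm, hp⟩ := h ((a : ℤ) + 1)
  have hm0 : 0 ≤ m := by linarith [Int.natCast_nonneg a]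
  refine ⟨m.toNat, ?_, ?_⟩
  · show p ((m.toNat : ℕ) : ℤ)
    rw [Int.toNat_of_nonneg hm0]
    exact hp
  · have : (a : ℤ) < (m.toNat : ℕ) := by
      rw [Int.toNat_of_nonneg hm0]; linarith
    exact_mod_cast this

theorem main (P : Set ℕ) (h2 : 2 ∈ P) (k : ℤ) (hk : k ≠ 0) :
    ∃ d : ℤ, d ≠ 0 ∧ ∀ e : ℕ, 0 < e →
      {m : ℕ | Even (omegaIn P ((m : ℤ) ^ 3 + k * (d * e) ^ 3).natAbs)}.Infinite ∧
      {m : ℕ | Odd (omegaIn P ((m : ℤ) ^ 3 + k * (d * e) ^ 3).natAbs)}.Infinite := by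
  obtain ⟨d, hd, h⟩ := both_mult (good_gP h2) hk
  refine ⟨d, hd, fun e he => ⟨?_, ?_⟩⟩
  · apply infinite_of (p := fun m : ℤ => Even (omegaIn P (m ^ 3 + k * (d * e) ^ 3).natAbs))
    intro M
    obtain ⟨m, hm, hm'⟩ := h e (by exact_mod_cast he) 1 (Or.inl rfl) M
    exact ⟨m, hm, (gP_one_iff P _).mp hm'⟩
  · apply infinite_of (p := fun m : ℤ => Odd (omegaIn P (m ^ 3 + k * (d * e) ^ 3).natAbs))
    intro M
    obtain ⟨m, hm, hm'⟩ := h e (by exact_mod_cast he) (-1) (Or.inr rfl) M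
    exact ⟨m, hm, (gP_neg_one_iff P _).mp hm'⟩

end Pool.Agent.H410R4.PC
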