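import Mathlib
import Pool.Agent.H410R4.PCf

set_option autoImplicit false

namespace Pool.Agent.H410R4.PC

variable {g : ℤ → ℤ}

lemma cube_add_ne' {n K r : ℤ} (hr : |K| < r) (hn : r ≤ |n|) : n ^ 3 + K ≠ 0 := by
  rcases le_total 0 n with h | h
  · rw [abs_of_nonneg h] at hn
    exact ne_of_gt (cube_add_pos (by linarith))
  · rw [abs_of_nonpos h] at hn
    have h3 : 0 < (-n) ^ 3 + -K := cube_add_pos (by rw [abs_neg]; linarith)
    intro h0
    have : (-n) ^ 3 + -K = -(n ^ 3 + K) := by ring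
    rw [this, h0] at h3
    simp at h3

/-- the five term relation for `g` -/
lemma five_g (hg : Good g) {n1 n2 n3 m1 m2 S K r : ℤ} (hrK : |K| < r) (hS : S ≠ 0)
    (a1 : r ≤ |n1|) (a2 : r ≤ |n2|) (a3 : r ≤ |n3|) (a4 : r ≤ |m1|) (a5 : r ≤ |m2|)
    (h1 : n1 + n2 + n3 = S) (h2 : n1 * n2 + n1 * n3 + n2 * n3 = S * (m1 + m2))
    (h3 : S * (m1 * m2) - n1 * n2 * n3 = K) :
    g (n1 ^ 3 + K) * g (n2 ^ 3 + K) * g (n3 ^ 3 + K) =
      g S * (g (m1 ^ 3 + K) * g (m2 ^ 3 + K)) := by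
  have rel := five h1 h2 h3
  have b1 := cube_add_ne' hrK a1
  have b2 := cube_add_ne' hrK a2
  have b3 := cube_add_ne' hrK a3
  have b4 := cube_add_ne' hrK a4
  have b5 := cube_add_ne' hrK a5
  have := congrArg g rel
  rw [hg.mul _ _ (mul_ne_zero b1 b2) b3, hg.mul _ _ b1 b2,
    hg.mul _ _ (pow_ne_zero 3 hS) (mul_ne_zero b4 b5), hg.mul _ _ b4 b5, hg.pow3 hS] at this
  exact this

lemma explicit_two (hg : Good g) {α β M : ℤ} (hα : α = 1 ∨ α = -1) (hβ : β = 1 ∨ β = -1)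
    (Hp : ∀ x : ℤ, M ≤ x → g (x ^ 3 + 3456) = α) (Hm : ∀ x : ℤ, M ≤ -x → g (x ^ 3 + 3456) = β) :
    False := by
  obtain ⟨r, hrM, hr⟩ : ∃ r : ℤ, M ≤ r ∧ 4000 ≤ r := ⟨max M 4000, le_max_left _ _, le_max_right _ _⟩
  have hrK : |(3456:ℤ)| < r := by
    rw [abs_of_pos (by norm_num)]; linarith
  have hrr : 4000 * r ≤ r ^ 2 := by nlinarith
  have ap : ∀ {n : ℤ}, r ≤ n → r ≤ |n| := fun h => le_trans h (le_abs_self _)
  have an : ∀ {n : ℤ}, r ≤ -n → r ≤ |n| := fun h => le_trans h (neg_le_abs _)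
  -- first family
  obtain ⟨c, hc⟩ : ∃ c : ℤ, c = r ^ 2 + r - 3 := ⟨_, rfl⟩
  have hc1 : 100 * r ≤ c := by rw [hc]; linarith
  have hprod : 0 ≤ (2 * r) * (c - 2) := mul_nonneg (by linarith) (by linarith)
  have hprod2 : 100 * (c - 2) ≤ (2 * r + 1) * (c - 2) :=
    mul_le_mul_of_nonneg_right (by linarith) (by linarith)
  have p1 : r ≤ 6 * (-6 + c + (2 * r + 1) * (c - 2)) := by linarith
  have p2 : r ≤ -(6 * (-6 + c - (2 * r + 1) * (c - 2))) := by linarith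
  have p3 : r ≤ -(-(12 * c)) := by linarith
  have p4 : r ≤ -(12 - 12 * c) := by linarith
  have p5 : r ≤ 2 * c ^ 3 - 12 * c - 4 := by
    have h1 : 100 ≤ c ^ 2 := by nlinarith
    have h2 : 100 * c ≤ c ^ 3 := by nlinarith
    linarith
  have e1 := five_g hg (n1 := 6 * (-6 + c + (2 * r + 1) * (c - 2)))
    (n2 := 6 * (-6 + c - (2 * r + 1) * (c - 2))) (n3 := -(12 * c)) (m1 := 12 - 12 * c)
    (m2 := 2 * c ^ 3 - 12 * c - 4) (S := -72) (K := 3456) hrK (by norm_num)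
    (ap p1) (an p2) (an p3) (an p4) (ap p5)
    (by ring)
    (by rw [hc]; ring)
    (by rw [hc]; ring)
  rw [Hp _ (le_trans hrM p1), Hm _ (le_trans hrM p2), Hm _ (le_trans hrM p3),
    Hm _ (le_trans hrM p4), Hp _ (le_trans hrM p5)] at e1
  -- second family
  have hr3 : r ≤ r ^ 3 := le_cube (by linarith)
  have hr3' : 4000 * r ^ 2 ≤ r ^ 3 := by nlinarith
  have q1 : r ≤ 4 * r ^ 3 - 4 * r ^ 2 - 6 := by linarith
  have q2 : r ≤ -(-(4 * r ^ 3) - 4 * r ^ 2 - 6) := by linarith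
  have q3 : r ≤ 8 * (r ^ 2 + 1) := by linarith
  have q4 : r ≤ 8 * r ^ 2 - 24 := by linarith
  have q5 : r ≤ 4 * (r ^ 2 + 1) ^ 3 + 8 * (r ^ 2 + 1) + 27 := by
    have h1 : 0 ≤ (r ^ 2 + 1) ^ 3 := by positivity
    linarith
  have e2 := five_g hg (n1 := 4 * r ^ 3 - 4 * r ^ 2 - 6) (n2 := -(4 * r ^ 3) - 4 * r ^ 2 - 6)
    (n3 := 8 * (r ^ 2 + 1)) (m1 := 8 * r ^ 2 - 24)
    (m2 := 4 * (r ^ 2 + 1) ^ 3 + 8 * (r ^ 2 + 1) + 27) (S := -4) (K := 3456) hrK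
    (by norm_num)
    (ap q1) (an q2) (ap q3) (ap q4) (ap q5)
    (by ring)
    (by ring)
    (by ring)
  rw [Hp _ (le_trans hrM q1), Hm _ (le_trans hrM q2), Hp _ (le_trans hrM q3),
    Hp _ (le_trans hrM q4), Hp _ (le_trans hrM q5)] at e2
  have g4 : g (-4) = 1 := by
    rw [hg.neg]
    have : (4:ℤ) = 2 ^ (2 * 1) := by norm_num
    rw [this]
    exact hg.pow_two_even two_ne_zero 1
  have g72 : g (-72) = -1 := by
    rw [hg.neg]
    have : (72:ℤ) = 2 * 6 ^ (2 * 1) := by norm_num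
    rw [this, g_two_mul hg (by norm_num), hg.pow_two_even (by norm_num) 1]
  rw [g72] at e1
  rw [g4] at e2
  rcases hα with h | h <;> rcases hβ with h' | h' <;> rw [h, h'] at e1 e2 <;> revert e1 e2 <;>
    decide

/-- both signs occur for arbitrarily large `m` -/
def Both (g : ℤ → ℤ) (K : ℤ) : Prop :=
  ∀ s : ℤ, (s = 1 ∨ s = -1) → ∀ M : ℤ, ∃ m : ℤ, M ≤ m ∧ g (m ^ 3 + K) = s

lemma E_of_not_both (hg : Good g) {K : ℤ} (h : ¬ Both g K) :
    ∃ s : ℤ, (s = 1 ∨ s = -1) ∧ E g K s := by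
  unfold Both at h
  push Not at h
  obtain ⟨s, hs, M, hM⟩ := h
  refine ⟨-s, ?_, M, fun m hm => ?_⟩
  · rcases hs with h | h <;> rw [h] <;> norm_num
  · have h1 := hM m hm
    have key : ∀ a b : ℤ, (a = 1 ∨ a = -1) → (b = 1 ∨ b = -1) → a ≠ b → a = -b := by
      rintro a b (rfl | rfl) (rfl | rfl) h <;> revert h <;> decide
    exact key _ _ (hg.val _) hs h1

lemma both_3456 (hg : Good g) : Both g 3456 ∨ Both g (-3456) := by
  by_contra hcon
  push Not at hcon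
  obtain ⟨α, hα, M1, hM1⟩ := E_of_not_both hg hcon.1
  obtain ⟨β, hβ, M2, hM2⟩ := E_of_not_both hg hcon.2
  apply explicit_two hg hα hβ (M := max M1 M2)
  · intro x hx
    exact hM1 x (le_trans (le_max_left _ _) hx)
  · intro x hx
    have h1 := hM2 (-x) (le_trans (le_max_right _ _) hx)
    have h2 : (-x) ^ 3 + -3456 = -(x ^ 3 + 3456) := by ring
    rw [h2, hg.neg] at h1
    exact h1

lemma Both_scale (hg : Good g) {K : ℤ} (h : Both g K) {e : ℤ} (he : 0 < e) :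
    Both g (K * e ^ 3) := by
  intro s hs M
  have hes : g e * s = 1 ∨ g e * s = -1 := pm_mul (hg.val e) hs
  obtain ⟨m, hm, hm'⟩ := h (g e * s) hes (max M (|K| + 1))
  have hm1 : M ≤ m := le_trans (le_max_left _ _) hm
  have hm3 : |K| < m := lt_of_lt_of_le (lt_add_one _) (le_trans (le_max_right _ _) hm)
  have hmpos : 0 < m := lt_of_le_of_lt (abs_nonneg _) hm3
  refine ⟨e * m, le_mul_pos he hmpos hm1, ?_⟩
  have h3 : (e * m) ^ 3 + K * e ^ 3 = e ^ 3 * (m ^ 3 + K) := by ring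
  rw [h3, hg.mul _ _ (pow_ne_zero 3 he.ne') (ne_of_gt (cube_add_pos hm3)), hg.pow3 he.ne', hm']
  have := hg.sq e
  calc g e * (g e * s) = (g e * g e) * s := by ring
    _ = s := by rw [this, one_mul]

lemma main_of_both {P : Set ℕ} {K : ℤ} (h : Both (gP P) K) :
    {m : ℕ | Even (omegaIn P ((m : ℤ) ^ 3 + K).natAbs)}.Infinite ∧
    {m : ℕ | Odd (omegaIn P ((m : ℤ) ^ 3 + K).natAbs)}.Infinite := by
  constructor
  · apply infinite_of (p := fun m : ℤ => Even (omegaIn P (m ^ 3 + K).natAbs))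
    intro M
    obtain ⟨m, hm, hm'⟩ := h 1 (Or.inl rfl) M
    exact ⟨m, hm, (gP_one_iff P _).mp hm'⟩
  · apply infinite_of (p := fun m : ℤ => Odd (omegaIn P (m ^ 3 + K).natAbs))
    intro M
    obtain ⟨m, hm, hm'⟩ := h (-1) (Or.inr rfl) M
    exact ⟨m, hm, (gP_neg_one_iff P _).mp hm'⟩

theorem main_3456 (P : Set ℕ) (h2 : 2 ∈ P) : ∃ s : ℤ, (s = 1 ∨ s = -1) ∧ ∀ e : ℕ, 0 < e →
    {m : ℕ | Even (omegaIn P ((m : ℤ) ^ 3 + s * 3456 * (e : ℤ) ^ 3).natAbs)}.Infinite ∧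
    {m : ℕ | Odd (omegaIn P ((m : ℤ) ^ 3 + s * 3456 * (e : ℤ) ^ 3).natAbs)}.Infinite := by
  rcases both_3456 (good_gP h2) with h | h
  · refine ⟨1, Or.inl rfl, fun e he => ?_⟩
    have he' : (0:ℤ) < e := by exact_mod_cast he
    rw [one_mul]
    exact main_of_both (Both_scale (good_gP h2) h he')
  · refine ⟨-1, Or.inr rfl, fun e he => ?_⟩
    have he' : (0:ℤ) < e := by exact_mod_cast he
    have e0 : (-1:ℤ) * 3456 = -3456 := by norm_num
    rw [e0]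
    exact main_of_both (Both_scale (good_gP h2) h he')

end Pool.Agent.H410R4.PC
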